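import Mathlib

set_option autoImplicit false

open Set Topology

namespace Pool.Agent.Results.MP_158c61_gt.CantorCube

/-- A family of subsets of `Z` is discrete if every point of `Z` has a neighbourhood that
meets at most one member of the family. -/
def DiscreteFamily {Z : Type} [TopologicalSpace Z] (D : Set (Set Z)) : Prop :=
  ∀ z : Z, ∃ V ∈ 𝓝 z, ∀ A ∈ D, ∀ B ∈ D, (A ∩ V).Nonempty → (B ∩ V).Nonempty → A = B

/-- Every open cover of `Z` has a closed refinement which is a countable union of discrete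
families. -/
def Subparacompact (Z : Type) [TopologicalSpace Z] : Prop :=
  ∀ U : Set (Set Z), (∀ u ∈ U, IsOpen u) → ⋃₀ U = univ →
    ∃ D : ℕ → Set (Set Z), (∀ n, DiscreteFamily (D n)) ∧ (∀ n, ∀ A ∈ D n, IsClosed A) ∧
      (∀ n, ∀ A ∈ D n, ∃ u ∈ U, A ⊆ u) ∧ (⋃ n, ⋃₀ (D n)) = univ

/-- Every subspace of `Z` is subparacompact. -/
def HereditarilySubparacompact (Z : Type) [TopologicalSpace Z] : Prop :=
  ∀ S : Set Z, Subparacompact S

/-- `X` is a compact Hausdorff continuous image of a Cantor cube. -/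
def DyadicCompact (X : Type) [TopologicalSpace X] : Prop :=
  CompactSpace X ∧ T2Space X ∧ ∃ (κ : Type) (f : (κ → Bool) → X), Continuous f ∧
    Function.Surjective f

section General

variable {Y : Type} [TopologicalSpace Y]

/-- the members of a locally finite closed family not containing `y` can be avoided. -/
lemma exists_nhd {J : Type} (N : J → Set Y) (hlf : LocallyFinite N)
    (hcl : ∀ j, IsClosed (N j)) (y : Y) :
    ∃ V ∈ 𝓝 y, ∀ y' ∈ V, ∀ j, y' ∈ N j → y ∈ N j := by
  let M : {j // y ∉ N j} → Set Y := fun j => N j.1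
  have hM : LocallyFinite M := hlf.comp_injective Subtype.val_injective
  have hMc : IsClosed (⋃ j, M j) := hM.isClosed_iUnion (fun j => hcl j.1)
  refine ⟨(⋃ j, M j)ᶜ, hMc.isOpen_compl.mem_nhds ?_, ?_⟩
  · simp only [mem_compl_iff, mem_iUnion, not_exists]
    intro j hj
    exact j.2 hj
  · intro y' hy' j hj
    by_contra hne
    apply hy'
    exact mem_iUnion.2 ⟨⟨j, hne⟩, hj⟩

theorem hereditarily_of_network {ι : Type} [Countable ι] (J : ι → Type)
    (N : (i : ι) → J i → Set Y)
    (hlf : ∀ i, LocallyFinite (N i)) (hcl : ∀ i j, IsClosed (N i j))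
    (hnet : ∀ y : Y, ∀ W ∈ 𝓝 y, ∃ i j, y ∈ N i j ∧ N i j ⊆ W) :
    HereditarilySubparacompact Y := by
  classical
  -- open sets are countable unions of closed sets
  have hopen : ∀ W : Set Y, IsOpen W → ∃ L : ι → Set Y, (∀ i, IsClosed (L i)) ∧
      (⋃ i, L i) = W := by
    intro W hW
    refine ⟨fun i => ⋃ j : {j // N i j ⊆ W}, N i j.1, ?_, ?_⟩
    · intro i
      have : LocallyFinite (fun j : {j // N i j ⊆ W} => N i j.1) :=
        (hlf i).comp_injective Subtype.val_injective
      exact this.isClosed_iUnion (fun j => hcl i j.1)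
    · apply Subset.antisymm
      · refine iUnion_subset fun i => iUnion_subset fun j => j.2
      · intro y hy
        obtain ⟨i, j, h1, h2⟩ := hnet y W (hW.mem_nhds hy)
        exact mem_iUnion.2 ⟨i, mem_iUnion.2 ⟨⟨j, h2⟩, h1⟩⟩
  have hfin : ∀ i y, {j | y ∈ N i j}.Finite := by
    intro i y
    exact (hlf i).point_finite y
  let T : (i : ι) → Y → Finset (J i) := fun i y => (hfin i y).toFinset
  have hT : ∀ i y j, j ∈ T i y ↔ y ∈ N i j := by
    intro i y j
    simp [T]
  -- the set of points lying in at most m members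
  have hO : ∀ i m, IsOpen {y | (T i y).card ≤ m} := by
    intro i m
    rw [isOpen_iff_mem_nhds]
    intro y hy
    obtain ⟨V, hV, hV'⟩ := exists_nhd (N i) (hlf i) (hcl i) y
    refine Filter.mem_of_superset hV ?_
    intro y' hy'
    have : T i y' ⊆ T i y := by
      intro j hj
      rw [hT] at hj ⊢
      exact hV' y' hy' j hj
    exact (Finset.card_le_card this).trans hy
  choose L hLc hLU using hopen
  let LL : (i : ι) → ℕ → ι → Set Y := fun i m l => L _ (hO i m) l
  have hLL : ∀ i m l y, y ∈ LL i m l → (T i y).card ≤ m := by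
    intro i m l y hy
    have : y ∈ ⋃ l, L _ (hO i m) l := mem_iUnion.2 ⟨l, hy⟩
    rw [hLU] at this
    exact this
  let D : (i : ι) → (m : ℕ) → (l : ι) → Finset (J i) → Set Y :=
    fun i m l t => (⋂ j ∈ t, N i j) ∩ LL i m l
  have hDc : ∀ i m l t, IsClosed (D i m l t) := by
    intro i m l t
    exact (isClosed_biInter fun j _ => hcl i j).inter (hLc _ _ _)
  have hDdisc : ∀ i m l y, ∃ V ∈ 𝓝 y, ∀ t : Finset (J i), t.card = m →
      (D i m l t ∩ V).Nonempty → t = T i y := by
    intro i m l y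
    by_cases hy : y ∈ LL i m l
    · obtain ⟨V, hV, hV'⟩ := exists_nhd (N i) (hlf i) (hcl i) y
      refine ⟨V, hV, ?_⟩
      rintro t ht ⟨y', hy'1, hy'2⟩
      have hsub : t ⊆ T i y := by
        intro j hj
        rw [hT]
        apply hV' y' hy'2 j
        have := hy'1.1
        simp only [mem_iInter] at this
        exact this j hj
      apply Finset.eq_of_subset_of_card_le hsub
      rw [ht]
      exact hLL i m l y hy
    · refine ⟨(LL i m l)ᶜ, ((hLc _ _ _).isOpen_compl).mem_nhds hy, ?_⟩
      rintro t ht ⟨y', hy'1, hy'2⟩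
      exact absurd hy'1.2 hy'2
  intro S U hU hUc
  -- an enumeration of the indices
  have : ∃ e : ℕ → Option (ι × ℕ × ι), Function.Surjective e := exists_surjective_nat _
  obtain ⟨e, he⟩ := this
  let DS : ℕ → Set (Set S) := fun n =>
    match e n with
    | none => ∅
    | some (i, m, l) => {A | ∃ t : Finset (J i), t.card = m ∧
        A = (Subtype.val ⁻¹' (D i m l t) : Set S) ∧ ∃ u ∈ U, A ⊆ u}
  refine ⟨DS, ?_, ?_, ?_, ?_⟩
  · intro n z
    rcases hn : e n with _ | ⟨i, m, l⟩
    · refine ⟨univ, Filter.univ_mem, ?_⟩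
      intro A hA
      simp only [DS, hn] at hA
      exact absurd hA (notMem_empty A)
    · obtain ⟨V, hV, hV'⟩ := hDdisc i m l z.1
      refine ⟨Subtype.val ⁻¹' V, continuous_subtype_val.continuousAt.preimage_mem_nhds hV, ?_⟩
      intro A hA B hB hAV hBV
      simp only [DS, hn] at hA hB
      obtain ⟨t, ht, rfl, _⟩ := hA
      obtain ⟨t', ht', rfl, _⟩ := hB
      have e1 : t = T i z.1 := by
        apply hV' t ht
        obtain ⟨w, hw1, hw2⟩ := hAV
        exact ⟨w.1, hw1, hw2⟩
      have e2 : t' = T i z.1 := by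
        apply hV' t' ht'
        obtain ⟨w, hw1, hw2⟩ := hBV
        exact ⟨w.1, hw1, hw2⟩
      rw [e1, e2]
  · intro n A hA
    rcases hn : e n with _ | ⟨i, m, l⟩
    · simp only [DS, hn] at hA
      exact absurd hA (notMem_empty A)
    · simp only [DS, hn] at hA
      obtain ⟨t, ht, rfl, _⟩ := hA
      exact (hDc i m l t).preimage continuous_subtype_val
  · intro n A hA
    rcases hn : e n with _ | ⟨i, m, l⟩
    · simp only [DS, hn] at hA
      exact absurd hA (notMem_empty A)
    · simp only [DS, hn] at hA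
      obtain ⟨t, ht, _, h⟩ := hA
      exact h
  · rw [eq_univ_iff_forall]
    intro z
    have hz : z ∈ ⋃₀ U := by rw [hUc]; exact mem_univ z
    obtain ⟨u, huU, hzu⟩ := hz
    obtain ⟨W, hW, hWu⟩ := isOpen_induced_iff.1 (hU u huU)
    have hzW : z.1 ∈ W := by
      have : z ∈ (Subtype.val ⁻¹' W : Set S) := by rw [hWu]; exact hzu
      exact this
    obtain ⟨i, j, h1, h2⟩ := hnet z.1 W (hW.mem_nhds hzW)
    have hzm : z.1 ∈ ⋃ l, L _ (hO i (T i z.1).card) l := by
      rw [hLU]
      show (T i z.1).card ≤ (T i z.1).card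
      exact le_refl _
    obtain ⟨l, hl⟩ := mem_iUnion.1 hzm
    obtain ⟨n, hn⟩ := he (some (i, (T i z.1).card, l))
    refine mem_iUnion.2 ⟨n, ?_⟩
    have hzD : z.1 ∈ D i (T i z.1).card l (T i z.1) := by
      refine ⟨?_, hl⟩
      simp only [mem_iInter]
      intro j' hj'
      exact (hT i z.1 j').1 hj'
    refine ⟨Subtype.val ⁻¹' D i (T i z.1).card l (T i z.1), ?_, hzD⟩
    simp only [DS, hn]
    refine ⟨T i z.1, rfl, rfl, u, huU, ?_⟩
    intro w hw
    rw [← hWu]
    apply h2
    have := hw.1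
    simp only [mem_iInter] at this
    exact this j ((hT i z.1 j).2 h1)

end General

/-- a hereditarily subparacompact space is subparacompact. -/
lemma subparacompact_of_hereditarily {Y : Type} [TopologicalSpace Y]
    (h : HereditarilySubparacompact Y) : Subparacompact Y := by
  intro U hU hUc
  obtain ⟨D, h1, h2, h3, h4⟩ := h univ {w | ∃ u ∈ U, w = Subtype.val ⁻¹' u}
    (by
      rintro w ⟨u, hu, rfl⟩
      exact (hU u hu).preimage continuous_subtype_val)
    (by
      rw [eq_univ_iff_forall]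
      intro z
      have hz : z.1 ∈ ⋃₀ U := by rw [hUc]; exact mem_univ _
      obtain ⟨u, hu, hzu⟩ := hz
      exact ⟨Subtype.val ⁻¹' u, ⟨u, hu, rfl⟩, hzu⟩)
  refine ⟨fun n => {A | ∃ B ∈ D n, A = Subtype.val '' B}, ?_, ?_, ?_, ?_⟩
  · intro n z
    obtain ⟨V, hV, hV'⟩ := h1 n ⟨z, mem_univ z⟩
    have hV2 : Subtype.val '' V ∈ 𝓝 z := by
      have := (isOpen_univ : IsOpen (univ : Set Y)).isOpenEmbedding_subtypeVal.isOpenMap.image_mem_nhds hV
      exact this
    refine ⟨_, hV2, ?_⟩
    rintro _ ⟨A, hA, rfl⟩ _ ⟨B, hB, rfl⟩ hAV hBV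
    have e : A = B := by
      apply hV' A hA B hB
      · obtain ⟨_, ⟨a, ha, rfl⟩, ⟨b, hb, hab⟩⟩ := hAV
        have : b = a := Subtype.val_injective hab
        exact ⟨a, ha, this ▸ hb⟩
      · obtain ⟨_, ⟨a, ha, rfl⟩, ⟨b, hb, hab⟩⟩ := hBV
        have : b = a := Subtype.val_injective hab
        exact ⟨a, ha, this ▸ hb⟩
    rw [e]
  · rintro n _ ⟨B, hB, rfl⟩
    exact (isClosed_univ : IsClosed (univ : Set Y)).isClosedEmbedding_subtypeVal.isClosedMap _
      (h2 n B hB)
  · rintro n _ ⟨B, hB, rfl⟩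
    obtain ⟨_, ⟨u, hu, rfl⟩, hBu⟩ := h3 n B hB
    refine ⟨u, hu, ?_⟩
    rintro _ ⟨b, hb, rfl⟩
    exact hBu hb
  · rw [eq_univ_iff_forall]
    intro z
    have hz : (⟨z, mem_univ z⟩ : (univ : Set Y)) ∈ ⋃ n, ⋃₀ (D n) := by rw [h4]; exact mem_univ _
    obtain ⟨n, hn⟩ := mem_iUnion.1 hz
    obtain ⟨B, hB, hzB⟩ := hn
    exact mem_iUnion.2 ⟨n, Subtype.val '' B, ⟨B, hB, rfl⟩, ⟨_, hzB, rfl⟩⟩

section Cube

/-- the Cantor set -/
abbrev Z : Type := ℕ → Bool

/-- the Cantor cube of weight continuum -/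
abbrev X : Type := Z → Bool

/-- the points of the cube that depend on the first `k` digits only -/
def E (k : ℕ) : Set X := {x | ∀ z z' : Z, (∀ i < k, z i = z' i) → x z = x z'}

lemma E_mono {k l : ℕ} (h : k ≤ l) : E k ⊆ E l := by
  intro x hx z z' hz
  exact hx z z' (fun i hi => hz i (lt_of_lt_of_le hi h))

lemma E_finite (k : ℕ) : (E k).Finite := by
  classical
  let ext : (Fin k → Bool) → Z := fun t i => if h : i < k then t ⟨i, h⟩ else false
  have hinj : Set.InjOn (fun (x : X) (t : Fin k → Bool) => x (ext t)) (E k) := by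
    intro x hx y hy hxy
    funext z
    let t : Fin k → Bool := fun i => z i
    have h1 : x z = x (ext t) := by
      apply hx
      intro i hi
      simp [ext, t, hi]
    have h2 : y z = y (ext t) := by
      apply hy
      intro i hi
      simp [ext, t, hi]
    rw [h1, h2]
    exact congrFun hxy t
  exact Set.Finite.of_finite_image (Set.toFinite _) hinj

/-- a point of the cube can be copied on a finite set by a point depending on finitely many
digits. -/
lemma exists_E (x : X) (H : Finset Z) : ∃ k, ∀ l, k ≤ l → ∃ e ∈ E l, ∀ z ∈ H, e z = x z := by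
  classical
  -- a level that separates the points of H
  have hsep : ∃ k, ∀ z ∈ H, ∀ z' ∈ H, (∀ i < k, z i = z' i) → z = z' := by
    have : ∀ p : Z × Z, ∃ k, p.1 ≠ p.2 → ∃ i < k, p.1 i ≠ p.2 i := by
      intro p
      by_cases hp : p.1 = p.2
      · exact ⟨0, fun h => absurd hp h⟩
      · obtain ⟨i, hi⟩ := Function.ne_iff.1 hp
        exact ⟨i + 1, fun _ => ⟨i, Nat.lt_succ_self i, hi⟩⟩
    choose k hk using this
    refine ⟨(H ×ˢ H).sup k, ?_⟩
    intro z hz z' hz' h
    by_contra hne
    obtain ⟨i, hi, hi'⟩ := hk (z, z') hne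
    apply hi'
    apply h
    exact lt_of_lt_of_le hi (Finset.le_sup (f := k) (Finset.mk_mem_product hz hz'))
  obtain ⟨k, hk⟩ := hsep
  refine ⟨k, fun l hl => ?_⟩
  refine ⟨fun z => decide (∃ h ∈ H, x h = true ∧ ∀ i < l, h i = z i), ?_, ?_⟩
  · intro z z' hz
    have : (∃ h ∈ H, x h = true ∧ ∀ i < l, h i = z i) ↔
        (∃ h ∈ H, x h = true ∧ ∀ i < l, h i = z' i) := by
      constructor
      · rintro ⟨h, h1, h2, h3⟩
        exact ⟨h, h1, h2, fun i hi => (h3 i hi).trans (hz i hi)⟩
      · rintro ⟨h, h1, h2, h3⟩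
        exact ⟨h, h1, h2, fun i hi => (h3 i hi).trans (hz i hi).symm⟩
    simp only [this]
  · intro z hz
    by_cases hx : x z = true
    · rw [hx]
      simp only [decide_eq_true_eq]
      exact ⟨z, hz, hx, fun i _ => rfl⟩
    · have hx' : x z = false := by simpa using hx
      rw [hx']
      simp only [decide_eq_false_iff_not]
      rintro ⟨h, h1, h2, h3⟩
      have : h = z := hk h h1 z hz (fun i hi => h3 i (lt_of_lt_of_le hi hl))
      rw [this] at h2
      exact hx h2

/-- continuity of a function on the cube in terms of finite sets of coordinates -/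
lemma exists_support (f : X → ℝ) (hf : Continuous f) (x : X) (δ : ℝ) (hδ : 0 < δ) :
    ∃ H : Finset Z, ∀ y : X, (∀ z ∈ H, y z = x z) → |f y - f x| < δ := by
  have h1 : {y : X | |f y - f x| < δ} ∈ 𝓝 x := by
    have h2 : Filter.Tendsto f (𝓝 x) (𝓝 (f x)) := hf.continuousAt
    have h3 := h2 (Metric.ball_mem_nhds (f x) hδ)
    simpa [Metric.ball, Real.dist_eq, Set.preimage] using h3
  rw [nhds_pi, Filter.mem_pi] at h1
  obtain ⟨I, hI, t, ht, hsub⟩ := h1
  refine ⟨hI.toFinset, fun y hy => ?_⟩
  apply hsub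
  intro i hi
  have := hy i (by simpa using hi)
  rw [this]
  exact mem_of_mem_nhds (ht i)

/-- uniform version -/
lemma exists_support_unif (f : X → ℝ) (hf : Continuous f) (δ : ℝ) (hδ : 0 < δ) :
    ∃ H : Finset Z, ∀ x y : X, (∀ z ∈ H, y z = x z) → |f y - f x| < δ := by
  classical
  have h1 : ∀ x : X, ∃ H : Finset Z, ∀ y : X, (∀ z ∈ H, y z = x z) → |f y - f x| < δ / 2 :=
    fun x => exists_support f hf x (δ / 2) (by linarith)
  choose H hH using h1
  have hopen : ∀ x : X, IsOpen {y : X | ∀ z ∈ H x, y z = x z} := by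
    intro x
    have : {y : X | ∀ z ∈ H x, y z = x z} = ⋂ z ∈ H x, {y : X | y z = x z} := by
      ext y; simp
    rw [this]
    apply isOpen_biInter_finset
    intro z _
    have hc : Continuous (fun y : X => y z) := continuous_apply z
    exact (isOpen_discrete ({x z} : Set Bool)).preimage hc
  obtain ⟨t, ht⟩ := isCompact_univ.elim_finite_subcover
    (fun x : X => {y : X | ∀ z ∈ H x, y z = x z}) hopen
    (fun x _ => mem_iUnion.2 ⟨x, fun z _ => rfl⟩)
  refine ⟨t.biUnion H, fun x y hxy => ?_⟩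
  have hx := ht (mem_univ x)
  simp only [mem_iUnion] at hx
  obtain ⟨w, hw, hxw⟩ := hx
  have h1 : |f x - f w| < δ / 2 := hH w x hxw
  have h2 : |f y - f w| < δ / 2 := by
    apply hH w y
    intro z hz
    rw [hxy z (Finset.mem_biUnion.2 ⟨w, hw, hz⟩)]
    exact hxw z hz
  have h3 : f y - f x = (f y - f w) - (f x - f w) := by ring
  rw [h3]
  calc |(f y - f w) - (f x - f w)| ≤ |f y - f w| + |f x - f w| := abs_sub _ _
    _ < δ := by linarith

/-- the function space of the cube, with the topology of pointwise convergence -/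
abbrev Cp : Type := {f : X → ℝ // Continuous f}

/-- the countable set of parameters -/
abbrev Param : Type := Σ n : ℕ, ℕ × ℚ × ℚ × ℚ × ((Fin n → Bool) → ℚ)

/-- the members of the network -/
def NN (p : Param) (F : Fin p.1 → Z) : Set Cp :=
  {f | (p.2.2.1 < p.2.2.2.1) ∧
    (∀ F' : Finset Z, F'.card < p.1 → ∃ x ∈ E p.2.1, ∃ y ∈ E p.2.1,
      (∀ z ∈ F', x z = y z) ∧ (p.2.2.2.1 : ℝ) ≤ |f.1 x - f.1 y|) ∧
    (∀ x y : X, (∀ i, x (F i) = y (F i)) → |f.1 x - f.1 y| ≤ (p.2.2.1 : ℝ)) ∧
    (∀ x : X, |f.1 x - (p.2.2.2.2.2 (fun i => x (F i)) : ℝ)| ≤ (p.2.2.2.2.1 : ℝ))}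

lemma continuous_ev (x : X) : Continuous (fun f : Cp => f.1 x) :=
  (continuous_apply x).comp continuous_subtype_val

lemma NN_closed (p : Param) (F : Fin p.1 → Z) : IsClosed (NN p F) := by
  have h1 : IsClosed {f : Cp | ∀ F' : Finset Z, F'.card < p.1 → ∃ x ∈ E p.2.1, ∃ y ∈ E p.2.1,
      (∀ z ∈ F', x z = y z) ∧ (p.2.2.2.1 : ℝ) ≤ |f.1 x - f.1 y|} := by
    simp only [ofPred_forall]
    refine isClosed_iInter fun F' => isClosed_iInter fun _ => ?_
    have : {f : Cp | ∃ x ∈ E p.2.1, ∃ y ∈ E p.2.1,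
        (∀ z ∈ F', x z = y z) ∧ (p.2.2.2.1 : ℝ) ≤ |f.1 x - f.1 y|} =
        ⋃ x ∈ E p.2.1, ⋃ y ∈ E p.2.1, {f : Cp | (∀ z ∈ F', x z = y z) ∧
          (p.2.2.2.1 : ℝ) ≤ |f.1 x - f.1 y|} := by
      ext f
      simp only [mem_ofPred_eq, mem_iUnion, exists_prop]
    rw [this]
    refine (E_finite _).isClosed_biUnion fun x _ => (E_finite _).isClosed_biUnion fun y _ => ?_
    by_cases hxy : ∀ z ∈ F', x z = y z
    · have : {f : Cp | (∀ z ∈ F', x z = y z) ∧ (p.2.2.2.1 : ℝ) ≤ |f.1 x - f.1 y|} =
          {f : Cp | (p.2.2.2.1 : ℝ) ≤ |f.1 x - f.1 y|} := by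
        ext f
        simp only [mem_ofPred_eq]
        exact ⟨fun h => h.2, fun h => ⟨hxy, h⟩⟩
      rw [this]
      exact isClosed_le continuous_const ((continuous_ev x).sub (continuous_ev y)).abs
    · have : {f : Cp | (∀ z ∈ F', x z = y z) ∧ (p.2.2.2.1 : ℝ) ≤ |f.1 x - f.1 y|} = ∅ := by
        ext f
        simp only [mem_ofPred_eq, mem_empty_iff_false, iff_false, not_and]
        intro h
        exact absurd h hxy
      rw [this]
      exact isClosed_empty
  have h2 : IsClosed {f : Cp | ∀ x y : X, (∀ i, x (F i) = y (F i)) →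
      |f.1 x - f.1 y| ≤ (p.2.2.1 : ℝ)} := by
    simp only [ofPred_forall]
    refine isClosed_iInter fun x => isClosed_iInter fun y => isClosed_iInter fun _ => ?_
    exact isClosed_le ((continuous_ev x).sub (continuous_ev y)).abs continuous_const
  have h3 : IsClosed {f : Cp | ∀ x : X,
      |f.1 x - (p.2.2.2.2.2 (fun i => x (F i)) : ℝ)| ≤ (p.2.2.2.2.1 : ℝ)} := by
    simp only [ofPred_forall]
    refine isClosed_iInter fun x => ?_
    exact isClosed_le ((continuous_ev x).sub continuous_const).abs continuous_const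
  by_cases hp : p.2.2.1 < p.2.2.2.1
  · have : NN p F = {f : Cp | ∀ F' : Finset Z, F'.card < p.1 → ∃ x ∈ E p.2.1, ∃ y ∈ E p.2.1,
      (∀ z ∈ F', x z = y z) ∧ (p.2.2.2.1 : ℝ) ≤ |f.1 x - f.1 y|} ∩
      ({f : Cp | ∀ x y : X, (∀ i, x (F i) = y (F i)) → |f.1 x - f.1 y| ≤ (p.2.2.1 : ℝ)} ∩
      {f : Cp | ∀ x : X,
        |f.1 x - (p.2.2.2.2.2 (fun i => x (F i)) : ℝ)| ≤ (p.2.2.2.2.1 : ℝ)}) := by
      ext f
      simp only [NN, mem_ofPred_eq, mem_inter_iff, hp, true_and]
    rw [this]
    exact h1.inter (h2.inter h3)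
  · have : NN p F = ∅ := by
      ext f
      simp only [NN, mem_ofPred_eq, mem_empty_iff_false, iff_false, not_and]
      intro h
      exact absurd h hp
    rw [this]
    exact isClosed_empty

lemma NN_locallyFinite (p : Param) : LocallyFinite (NN p) := by
  classical
  intro f₀
  obtain ⟨n, k, c, s, r, g⟩ := p
  by_cases hcs : c < s
  swap
  · refine ⟨univ, Filter.univ_mem, ?_⟩
    have : {F | (NN ⟨n, k, c, s, r, g⟩ F ∩ univ).Nonempty} = ∅ := by
      ext F
      simp only [mem_ofPred_eq, mem_empty_iff_false, iff_false]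
      rintro ⟨f, hf, _⟩
      exact hcs hf.1
    rw [this]
    exact finite_empty
  by_cases hf₀ : ∀ F' : Finset Z, F'.card < n → ∃ x ∈ E k, ∃ y ∈ E k,
      (∀ z ∈ F', x z = y z) ∧ (s : ℝ) ≤ |f₀.1 x - f₀.1 y|
  · -- the main case
    have hcs' : (c : ℝ) < s := by exact_mod_cast hcs
    let δ : ℝ := ((s : ℝ) - c) / 4
    have hδ : 0 < δ := by simp only [δ]; linarith
    obtain ⟨H, hH⟩ := exists_support_unif f₀.1 f₀.2 (δ / 2) (by linarith)
    -- the finitely many test points
    let cut : X → X := fun x z => if z ∈ H then x z else false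
    have hcutfin : (range cut).Finite := by
      have : range cut ⊆ (fun (A : Finset Z) (z : Z) => decide (z ∈ A)) '' (H.powerset : Set (Finset Z)) := by
        rintro _ ⟨x, rfl⟩
        refine ⟨H.filter (fun z => x z = true), ?_, ?_⟩
        · rw [Finset.mem_coe, Finset.mem_powerset]
          exact Finset.filter_subset _ _
        · funext z
          simp only [cut, Finset.mem_filter]
          by_cases hz : z ∈ H
          · simp [hz]
          · simp [hz]
      exact (Set.toFinite _).subset this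
    have hV : {f : Cp | ∀ x ∈ range cut, |f.1 x - f₀.1 x| < δ / 2} ∈ 𝓝 f₀ := by
      have : {f : Cp | ∀ x ∈ range cut, |f.1 x - f₀.1 x| < δ / 2} =
          ⋂ x ∈ range cut, {f : Cp | |f.1 x - f₀.1 x| < δ / 2} := by
        ext f; simp
      rw [this, Filter.biInter_mem hcutfin]
      intro x _
      apply IsOpen.mem_nhds
      · exact isOpen_lt ((continuous_ev x).sub continuous_const).abs continuous_const
      · simp only [mem_ofPred_eq, sub_self, abs_zero]
        linarith
    refine ⟨_, hV, ?_⟩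
    have hsub : {F | (NN ⟨n, k, c, s, r, g⟩ F ∩
        {f : Cp | ∀ x ∈ range cut, |f.1 x - f₀.1 x| < δ / 2}).Nonempty} ⊆
        {F : Fin n → Z | ∀ i, F i ∈ (H : Set Z)} := by
      rintro F ⟨f, hf, hfV⟩
      by_contra hcon
      simp only [mem_ofPred_eq, not_forall] at hcon
      obtain ⟨i, hi⟩ := hcon
      have hi' : F i ∉ H := by simpa using hi
      let F' : Finset Z := (Finset.univ.image F).filter (fun z => z ∈ H)
      have hcard : F'.card < n := by
        have h1 : F' ⊂ Finset.univ.image F := by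
          refine ⟨Finset.filter_subset _ _, ?_⟩
          intro hh
          have : F i ∈ F' := hh (Finset.mem_image_of_mem F (Finset.mem_univ i))
          exact hi' (Finset.mem_filter.1 this).2
        have h2 := Finset.card_lt_card h1
        have h3 : (Finset.univ.image F).card ≤ n := by
          have := Finset.card_image_le (s := (Finset.univ : Finset (Fin n))) (f := F)
          simpa using this
        omega
      obtain ⟨x, hx, y, hy, hxy, hs⟩ := hf₀ F' hcard
      have hcx : |f₀.1 (cut x) - f₀.1 x| < δ / 2 := by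
        apply hH
        intro z hz
        simp [cut, hz]
      have hcy : |f₀.1 (cut y) - f₀.1 y| < δ / 2 := by
        apply hH
        intro z hz
        simp [cut, hz]
      have hfx : |f.1 (cut x) - f₀.1 (cut x)| < δ / 2 := hfV _ ⟨x, rfl⟩
      have hfy : |f.1 (cut y) - f₀.1 (cut y)| < δ / 2 := hfV _ ⟨y, rfl⟩
      have hcc : |f.1 (cut x) - f.1 (cut y)| ≤ (c : ℝ) := by
        apply hf.2.2.1
        intro j
        by_cases hj : F j ∈ H
        · simp only [cut, hj, if_true]
          apply hxy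
          exact Finset.mem_filter.2 ⟨Finset.mem_image_of_mem F (Finset.mem_univ j), hj⟩
        · simp only [cut, hj, if_false]
      have hδ' : (s : ℝ) - c = 4 * δ := by simp only [δ]; ring
      rw [abs_lt] at hcx hcy hfx hfy
      rw [abs_le] at hcc
      rcases le_abs.1 hs with h | h <;> linarith
    apply Set.Finite.subset _ hsub
    exact Set.Finite.pi' (fun _ => H.finite_toSet)
  · -- `f₀` is outside of the closed set
    push Not at hf₀
    obtain ⟨F', hF', hlt⟩ := hf₀
    have hV : {f : Cp | ∀ x ∈ E k, ∀ y ∈ E k, (∀ z ∈ F', x z = y z) →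
        |f.1 x - f.1 y| < s} ∈ 𝓝 f₀ := by
      have : {f : Cp | ∀ x ∈ E k, ∀ y ∈ E k, (∀ z ∈ F', x z = y z) → |f.1 x - f.1 y| < s} =
          ⋂ x ∈ E k, ⋂ y ∈ E k, {f : Cp | (∀ z ∈ F', x z = y z) → |f.1 x - f.1 y| < s} := by
        ext f; simp
      rw [this, Filter.biInter_mem (E_finite k)]
      intro x hx
      rw [Filter.biInter_mem (E_finite k)]
      intro y hy
      by_cases hxy : ∀ z ∈ F', x z = y z
      · have hS : {f : Cp | |f.1 x - f.1 y| < s} ∈ 𝓝 f₀ := by
          apply IsOpen.mem_nhds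
          · exact isOpen_lt ((continuous_ev x).sub (continuous_ev y)).abs continuous_const
          · exact hlt x hx y hy hxy
        exact Filter.mem_of_superset hS (fun f hf _ => hf)
      · have : {f : Cp | (∀ z ∈ F', x z = y z) → |f.1 x - f.1 y| < s} = univ := by
          ext f
          simp only [mem_ofPred_eq, mem_univ, iff_true]
          intro h
          exact absurd h hxy
        rw [this]
        exact Filter.univ_mem
    refine ⟨_, hV, ?_⟩
    have : {F | (NN ⟨n, k, c, s, r, g⟩ F ∩ {f : Cp | ∀ x ∈ E k, ∀ y ∈ E k,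
        (∀ z ∈ F', x z = y z) → |f.1 x - f.1 y| < s}).Nonempty} = ∅ := by
      ext F
      simp only [mem_ofPred_eq, mem_empty_iff_false, iff_false]
      rintro ⟨f, hf, hfV⟩
      obtain ⟨x, hx, y, hy, hxy, hs⟩ := hf.2.1 F' hF'
      exact absurd (hfV x hx y hy hxy) (not_lt.2 hs)
    rw [this]
    exact finite_empty

/-- oscillation at most `c` on the sets of points with fixed coordinates in `F` -/
def Osc (f : X → ℝ) (F : Finset Z) (c : ℝ) : Prop :=
  ∀ x y : X, (∀ z ∈ F, x z = y z) → |f x - f y| ≤ c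

lemma exists_level (f : X → ℝ) (hf : Continuous f) (n : ℕ) (c : ℝ)
    (hn : ∀ F' : Finset Z, F'.card < n → ¬ Osc f F' c) :
    ∃ k : ℕ, ∃ s : ℚ, c < s ∧ ∀ F' : Finset Z, F'.card < n → ∃ x ∈ E k, ∃ y ∈ E k,
      (∀ z ∈ F', x z = y z) ∧ (s : ℝ) ≤ |f x - f y| := by
  classical
  rcases n with _ | m
  · obtain ⟨s, hs, _⟩ := exists_rat_btwn (lt_add_one c)
    exact ⟨0, s, hs, fun F' hF' => absurd hF' (Nat.not_lt_zero _)⟩
  · -- open sets of `m`-tuples
    let O : ℕ → Set (Fin m → Z) := fun k =>
      {F | ∃ x ∈ E k, ∃ y ∈ E k, (∀ i, x (F i) = y (F i)) ∧ c + 1 / ((k : ℝ) + 1) < |f x - f y|}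
    have hEcont : ∀ k, ∀ x ∈ E k, Continuous x := by
      intro k x hx
      have hfac : x = (fun t : Fin k → Bool =>
          x (fun i => if h : i < k then t ⟨i, h⟩ else false)) ∘ (fun z : Z => fun i : Fin k => z i) := by
        funext z
        simp only [Function.comp]
        apply hx
        intro i hi
        simp [hi]
      rw [hfac]
      apply Continuous.comp continuous_of_discreteTopology
      exact continuous_pi fun i => continuous_apply _
    have hOopen : ∀ k, IsOpen (O k) := by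
      intro k
      have : O k = ⋃ x ∈ E k, ⋃ y ∈ E k, {F : Fin m → Z | (∀ i, x (F i) = y (F i)) ∧
          c + 1 / ((k : ℝ) + 1) < |f x - f y|} := by
        ext F
        simp only [O, mem_ofPred_eq, mem_iUnion, exists_prop]
      rw [this]
      refine isOpen_biUnion fun x hx => isOpen_biUnion fun y hy => ?_
      have h1 : IsOpen {F : Fin m → Z | ∀ i, x (F i) = y (F i)} := by
        simp only [ofPred_forall]
        refine isOpen_iInter_of_finite fun i => ?_
        have hx' : Continuous (fun F : Fin m → Z => x (F i)) :=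
          (hEcont k x hx).comp (continuous_apply i)
        have hy' : Continuous (fun F : Fin m → Z => y (F i)) :=
          (hEcont k y hy).comp (continuous_apply i)
        exact (isOpen_discrete {p : Bool × Bool | p.1 = p.2}).preimage (hx'.prodMk hy')
      exact h1.inter isOpen_const
    have hmono : ∀ k l, k ≤ l → O k ⊆ O l := by
      rintro k l hkl F ⟨x, hx, y, hy, h1, h2⟩
      refine ⟨x, E_mono hkl hx, y, E_mono hkl hy, h1, lt_of_le_of_lt ?_ h2⟩
      have : (k : ℝ) ≤ l := by exact_mod_cast hkl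
      have h3 : 1 / ((l : ℝ) + 1) ≤ 1 / ((k : ℝ) + 1) :=
        one_div_le_one_div_of_le (by positivity) (by linarith)
      linarith
    have hcov : (univ : Set (Fin m → Z)) ⊆ ⋃ k, O k := by
      intro F _
      have hcard : (Finset.univ.image F).card < m + 1 := by
        have := Finset.card_image_le (s := (Finset.univ : Finset (Fin m))) (f := F)
        simp only [Finset.card_univ, Fintype.card_fin] at this
        omega
      have h1 := hn _ hcard
      unfold Osc at h1
      push Not at h1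
      obtain ⟨x', y', hxy', hlt⟩ := h1
      let δ : ℝ := (|f x' - f y'| - c) / 4
      have hδ : 0 < δ := by simp only [δ]; linarith
      obtain ⟨Hx, hHx⟩ := exists_support f hf x' δ hδ
      obtain ⟨Hy, hHy⟩ := exists_support f hf y' δ hδ
      obtain ⟨kx, hkx⟩ := exists_E x' (Hx ∪ Finset.univ.image F)
      obtain ⟨ky, hky⟩ := exists_E y' (Hy ∪ Finset.univ.image F)
      obtain ⟨kδ, hkδ⟩ := exists_nat_one_div_lt hδ
      let k := max kx (max ky kδ)
      obtain ⟨x, hx, hxx⟩ := hkx k (le_max_left _ _)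
      obtain ⟨y, hy, hyy⟩ := hky k (le_trans (le_max_left _ _) (le_max_right _ _))
      have hk3 : kδ ≤ k := le_trans (le_max_right _ _) (le_max_right _ _)
      refine mem_iUnion.2 ⟨k, x, hx, y, hy, ?_, ?_⟩
      · intro i
        have hi : F i ∈ Finset.univ.image F := Finset.mem_image_of_mem F (Finset.mem_univ i)
        rw [hxx _ (Finset.mem_union_right _ hi), hyy _ (Finset.mem_union_right _ hi)]
        exact hxy' _ hi
      · have e1 : |f x - f x'| < δ := hHx x fun z hz => hxx z (Finset.mem_union_left _ hz)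
        have e2 : |f y - f y'| < δ := hHy y fun z hz => hyy z (Finset.mem_union_left _ hz)
        have e3 : 1 / ((k : ℝ) + 1) < δ := by
          have : (kδ : ℝ) ≤ k := by exact_mod_cast hk3
          have h3 : 1 / ((k : ℝ) + 1) ≤ 1 / ((kδ : ℝ) + 1) :=
            one_div_le_one_div_of_le (by positivity) (by linarith)
          linarith
        have e4 : |f x' - f y'| = c + 4 * δ := by simp only [δ]; ring
        have e5 : |f x' - f y'| ≤ |f x - f y| + |f x - f x'| + |f y - f y'| := by
          have : f x' - f y' = (f x - f y) - (f x - f x') + (f y - f y') := by ring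
          rw [this]
          calc |(f x - f y) - (f x - f x') + (f y - f y')|
              ≤ |(f x - f y) - (f x - f x')| + |f y - f y'| := abs_add_le _ _
            _ ≤ |f x - f y| + |f x - f x'| + |f y - f y'| := by
                have := abs_sub (f x - f y) (f x - f x')
                linarith
        linarith
    obtain ⟨t, ht⟩ := isCompact_univ.elim_finite_subcover O hOopen hcov
    let k := t.sup id
    have hall : ∀ F : Fin m → Z, F ∈ O k := by
      intro F
      have := ht (mem_univ F)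
      simp only [mem_iUnion] at this
      obtain ⟨j, hj, hF⟩ := this
      exact hmono j k (Finset.le_sup (f := id) hj) hF
    obtain ⟨s, hs1, hs2⟩ := exists_rat_btwn
      (show c < c + 1 / ((k : ℝ) + 1) by
        have : (0 : ℝ) < 1 / ((k : ℝ) + 1) := by positivity
        linarith)
    refine ⟨k, s, hs1, ?_⟩
    intro F' hF'
    have hF'' : F'.card ≤ m := Nat.lt_succ_iff.1 hF'
    -- a tuple whose range contains `F'`
    have : ∃ F : Fin m → Z, ∀ z ∈ F', ∃ i, F i = z := by
      let e := F'.equivFin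
      refine ⟨fun i => if h : (i : ℕ) < F'.card then (e.symm ⟨i, h⟩).1 else fun _ => false, ?_⟩
      intro z hz
      have hlt := (e ⟨z, hz⟩).2
      refine ⟨⟨(e ⟨z, hz⟩).1, lt_of_lt_of_le hlt hF''⟩, ?_⟩
      simp
    obtain ⟨F, hF⟩ := this
    obtain ⟨x, hx, y, hy, h1, h2⟩ := hall F
    refine ⟨x, hx, y, hy, ?_, by linarith⟩
    intro z hz
    obtain ⟨i, rfl⟩ := hF z hz
    exact h1 i

theorem NN_network (f : Cp) (W : Set Cp) (hW : W ∈ 𝓝 f) :
    ∃ (p : Param) (F : Fin p.1 → Z), f ∈ NN p F ∧ NN p F ⊆ W := by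
  classical
  -- a norm ball inside of `W`
  have hball : ∃ ε : ℝ, 0 < ε ∧ ∀ f' : Cp, (∀ x, |f'.1 x - f.1 x| < ε) → f' ∈ W := by
    rw [nhds_subtype_eq_comap] at hW
    obtain ⟨V, hV, hVW⟩ := hW
    rw [nhds_pi, Filter.mem_pi] at hV
    obtain ⟨I, hI, t, ht, hsub⟩ := hV
    have : ∀ x : X, ∃ ε : ℝ, 0 < ε ∧ ∀ r : ℝ, |r - f.1 x| < ε → r ∈ t x := by
      intro x
      obtain ⟨ε, hε, hb⟩ := Metric.mem_nhds_iff.1 (ht x)
      exact ⟨ε, hε, fun r hr => hb (by simpa [Real.dist_eq] using hr)⟩
    choose ε hε hεt using this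
    by_cases hne : hI.toFinset.Nonempty
    · obtain ⟨x₀, hx₀, hmin⟩ := Finset.exists_min_image hI.toFinset ε hne
      refine ⟨ε x₀, hε x₀, fun f' hf' => hVW (hsub ?_)⟩
      intro x hx
      apply hεt
      exact lt_of_lt_of_le (hf' x) (hmin x (by simpa using hx))
    · refine ⟨1, one_pos, fun f' _ => hVW (hsub ?_)⟩
      intro x hx
      exact absurd ⟨x, by simpa using hx⟩ hne
  obtain ⟨ε, hε, hεW⟩ := hball
  obtain ⟨c, hc0, hcε⟩ := exists_rat_btwn (show (0 : ℝ) < ε / 8 by linarith)
  -- a finite set of coordinates of least size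
  have hex : ∃ n : ℕ, ∃ F : Finset Z, F.card = n ∧ Osc f.1 F c := by
    obtain ⟨H, hH⟩ := exists_support_unif f.1 f.2 c hc0
    exact ⟨H.card, H, rfl, fun x y hxy => (hH y x (fun z hz => hxy z hz)).le⟩
  let n := Nat.find hex
  obtain ⟨F₀, hF₀, hosc⟩ := Nat.find_spec hex
  have hmin : ∀ F' : Finset Z, F'.card < n → ¬ Osc f.1 F' c := by
    intro F' hF' h
    exact Nat.find_min hex hF' ⟨F', rfl, h⟩
  obtain ⟨k, s, hcs, hks⟩ := exists_level f.1 f.2 n c hmin
  -- enumerate
  let e : Fin n ≃ F₀ := (finCongr hF₀.symm).trans F₀.equivFin.symm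
  let F : Fin n → Z := fun i => (e i).1
  have hFmem : ∀ z ∈ F₀, ∃ i, F i = z := by
    intro z hz
    refine ⟨e.symm ⟨z, hz⟩, ?_⟩
    simp [F]
  have hFinj : Function.Injective F := Subtype.val_injective.comp e.injective
  -- values
  have hval : ∀ t : Fin n → Bool, ∃ x : X, ∀ i, x (F i) = t i := by
    intro t
    refine ⟨fun z => if h : ∃ i, F i = z then t h.choose else false, ?_⟩
    intro i
    have h : ∃ j, F j = F i := ⟨i, rfl⟩
    have : h.choose = i := hFinj h.choose_spec
    simp only [h, dif_pos]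
    rw [this]
  choose xt hxt using hval
  have hg : ∀ t : Fin n → Bool, ∃ q : ℚ, |f.1 (xt t) - q| < c := by
    intro t
    obtain ⟨q, h1, h2⟩ := exists_rat_btwn (show f.1 (xt t) - c < f.1 (xt t) by linarith)
    refine ⟨q, ?_⟩
    rw [abs_lt]
    constructor <;> linarith
  choose g hg using hg
  have hoscF : ∀ x y : X, (∀ i, x (F i) = y (F i)) → |f.1 x - f.1 y| ≤ c := by
    intro x y hxy
    apply hosc
    intro z hz
    obtain ⟨i, rfl⟩ := hFmem z hz
    exact hxy i
  refine ⟨⟨n, k, c, s, 2 * c, g⟩, F, ⟨?_, hks, hoscF, ?_⟩, ?_⟩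
  · have : (c : ℝ) < s := hcs
    exact_mod_cast this
  · intro x
    have h1 : |f.1 x - f.1 (xt fun i => x (F i))| ≤ c := hoscF _ _ (fun i => (hxt (fun i => x (F i)) i).symm)
    have h2 := hg (fun i => x (F i))
    have h3 : f.1 x - (g (fun i => x (F i)) : ℝ) =
      (f.1 x - f.1 (xt fun i => x (F i))) + (f.1 (xt fun i => x (F i)) - g (fun i => x (F i))) := by
      ring
    push_cast
    rw [h3]
    calc _ ≤ |f.1 x - f.1 (xt fun i => x (F i))| +
          |f.1 (xt fun i => x (F i)) - g (fun i => x (F i))| := abs_add_le _ _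
      _ ≤ 2 * c := by linarith
  · intro f' hf'
    apply hεW
    intro x
    have h1 := hf'.2.2.2 x
    have h2 : |f.1 x - f.1 (xt fun i => x (F i))| ≤ c := hoscF _ _ (fun i => (hxt (fun i => x (F i)) i).symm)
    have h3 := hg (fun i => x (F i))
    push_cast at h1
    rw [abs_le] at h1 h2
    rw [abs_lt] at h3 ⊢
    constructor <;> linarith [h1.1, h1.2, h2.1, h2.2, h3.1, h3.2]

theorem hereditarily_Cp : HereditarilySubparacompact Cp :=
  hereditarily_of_network (fun p : Param => (Fin p.1 → Z)) NN NN_locallyFinite NN_closed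
    (fun f W hW => NN_network f W hW)

theorem not_metrizable : ¬ TopologicalSpace.MetrizableSpace X := by
  classical
  intro hm
  have h1 : IsGδ ({fun _ => false} : Set X) := IsGδ.singleton _
  obtain ⟨T, hT, hTc, hTe⟩ := h1
  have h2 : ∀ U ∈ T, ∃ I : Finset Z, ∀ x : X, (∀ z ∈ I, x z = false) → x ∈ U := by
    intro U hU
    have hmem : (fun _ => false : X) ∈ U := by
      have : (fun _ => false : X) ∈ ⋂₀ T := by rw [← hTe]; exact rfl
      exact this U hU
    have hn := (hT U hU).mem_nhds hmem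
    rw [nhds_pi, Filter.mem_pi] at hn
    obtain ⟨I, hI, t, ht, hsub⟩ := hn
    refine ⟨hI.toFinset, fun x hx => hsub ?_⟩
    intro z hz
    rw [hx z (by simpa using hz)]
    exact mem_of_mem_nhds (ht z)
  choose! I hI using h2
  have hcount : (⋃ U ∈ T, (I U : Set Z)).Countable :=
    hTc.biUnion fun U _ => (I U).countable_toSet
  have hex : ∃ z : Z, z ∉ ⋃ U ∈ T, (I U : Set Z) := by
    by_contra hcon
    push Not at hcon
    have : (univ : Set Z).Countable := hcount.mono fun z _ => hcon z
    have h3 : Countable Z := countable_univ_iff.1 this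
    obtain ⟨g, hg⟩ := exists_surjective_nat Z
    refine Function.cantor_surjective (fun n => {m | g n m = true}) ?_
    intro A
    obtain ⟨n, hn⟩ := hg (fun m => decide (m ∈ A))
    refine ⟨n, ?_⟩
    ext m
    simp [hn]
  obtain ⟨z, hz⟩ := hex
  let x : X := fun z' => decide (z' = z)
  have hx : x ∈ ⋂₀ T := by
    intro U hU
    apply hI U hU
    intro z' hz'
    simp only [x, decide_eq_false_iff_not]
    rintro rfl
    exact hz (mem_biUnion hU hz')
  rw [← hTe] at hx
  have : x z = false := congrFun hx z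
  simp [x] at this

end Cube

/-- There is a non-metrizable dyadic compact space `X` (the Cantor cube of weight continuum)
such that `C_p(X)`, the space of continuous real functions on `X` with the topology of pointwise
convergence, is subparacompact and even hereditarily subparacompact. -/
theorem result : ∃ (X : Type) (_ : TopologicalSpace X),
    DyadicCompact X ∧ ¬ TopologicalSpace.MetrizableSpace X ∧
    Subparacompact {f : X → ℝ // Continuous f} ∧
    HereditarilySubparacompact {f : X → ℝ // Continuous f} :=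
  ⟨X, inferInstance, ⟨inferInstance, inferInstance, Z, id, continuous_id,
    Function.surjective_id⟩, not_metrizable, subparacompact_of_hereditarily hereditarily_Cp,
    hereditarily_Cp⟩

end Pool.Agent.Results.MP_158c61_gt.CantorCube
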